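import Mathlib

/-!
# Orbits of maps which are affine on residue classes: almost all orbits fall below `n ^ c`

`C` maps the progression `m κ^i k + s`, `k < N`, onto a progression with difference `R`, and
`d R = m κ^(i+j)`, where `d` and `j` depend only on the residue of `s` modulo `m`; so the image is the
union of `d` progressions of the same kind with about `N / d` terms.
-/

set_option autoImplicit false

open Real Filter Topology

namespace Pool.Agent.H740K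

/-- all iterates are at least `Z` -/
def Bad (C : ℕ → ℕ) (Z : ℝ) (n : ℕ) : Prop := ∀ k : ℕ, Z ≤ ((C^[k] n : ℕ) : ℝ)

theorem Bad.le {C : ℕ → ℕ} {Z : ℝ} {n : ℕ} (h : Bad C Z n) : Z ≤ (n : ℝ) := h 0

theorem Bad.step {C : ℕ → ℕ} {Z : ℝ} {n : ℕ} (h : Bad C Z n) : Bad C Z (C n) := by
  intro k
  have h1 := h (k + 1)
  rwa [Function.iterate_succ_apply] at h1

open Classical in
/-- number of `k < N` with `P k + s` bad -/
noncomputable def cnt (C : ℕ → ℕ) (Z : ℝ) (P s N : ℕ) : ℕ :=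
  ((Finset.range N).filter fun k => Bad C Z (P * k + s)).card

open Classical in
theorem cnt_le (C : ℕ → ℕ) (Z : ℝ) (P s N : ℕ) : cnt C Z P s N ≤ N := by
  unfold cnt
  exact (Finset.card_filter_le _ _).trans (Finset.card_range N).le

open Classical in
theorem cnt_zero (C : ℕ → ℕ) (Z : ℝ) (P s N : ℕ) (h : ((P * (N - 1) + s : ℕ) : ℝ) < Z) :
    cnt C Z P s N = 0 := by
  unfold cnt
  rw [Finset.card_eq_zero, Finset.filter_eq_empty_iff]
  intro k hk hb
  have h1 := hb.le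
  have h2 : P * k + s ≤ P * (N - 1) + s := by
    have h4 := Finset.mem_range.1 hk
    have h5 : P * k ≤ P * (N - 1) := Nat.mul_le_mul_left P (by omega)
    omega
  have h3 : ((P * k + s : ℕ) : ℝ) ≤ ((P * (N - 1) + s : ℕ) : ℝ) := by exact_mod_cast h2
  linarith

open Classical in
theorem cnt_split (C : ℕ → ℕ) (Z : ℝ) (P s R t d N : ℕ) (hd : 1 ≤ d)
    (hC : ∀ k, C (P * k + s) = R * k + t) :
    cnt C Z P s N ≤
      ∑ e ∈ Finset.range d, cnt C Z (d * R) (R * e + t) ((N + (d - 1 - e)) / d) := by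
  have h : ((Finset.range N).filter fun k => Bad C Z (P * k + s)) ⊆
      (Finset.range d).biUnion fun e =>
        ((Finset.range ((N + (d - 1 - e)) / d)).filter fun k =>
          Bad C Z (d * R * k + (R * e + t))).image (fun k => d * k + e) := by
    intro k hk
    rw [Finset.mem_filter, Finset.mem_range] at hk
    obtain ⟨hkN, hb⟩ := hk
    have e1 := Nat.div_add_mod k d
    have e2 := Nat.mod_lt k hd
    rw [Finset.mem_biUnion]
    refine ⟨k % d, Finset.mem_range.2 e2, ?_⟩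
    rw [Finset.mem_image]
    refine ⟨k / d, ?_, e1⟩
    rw [Finset.mem_filter, Finset.mem_range]
    constructor
    · rw [Nat.lt_iff_add_one_le, Nat.le_div_iff_mul_le hd]
      have e3 : (k / d + 1) * d = d * (k / d) + d := by ring
      rw [e3]
      omega
    · have e4 : d * R * (k / d) + (R * (k % d) + t) = R * (d * (k / d) + k % d) + t := by ring
      rw [e4, e1, ← hC]
      exact hb.step
  exact (Finset.card_le_card h).trans (Finset.card_biUnion_le.trans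
    (Finset.sum_le_sum fun e _ => Finset.card_image_le))

/-- the weight -/
noncomputable def W (τ γ θ U P Z : ℝ) : ℝ := U ^ τ * P ^ (-γ) * Z ^ (-θ)

theorem W_nonneg (τ γ θ U P Z : ℝ) (hU : 0 ≤ U) (hP : 0 ≤ P) (hZ : 0 ≤ Z) :
    0 ≤ W τ γ θ U P Z := by
  unfold W
  positivity

theorem one_le_W (τ γ θ U P Z : ℝ) (hτ : τ = γ + θ) (hγ : 0 ≤ γ) (hθ : 0 ≤ θ) (hP : 0 < P)
    (hZ : 0 < Z) (h1 : P ≤ U) (h2 : Z ≤ U) : 1 ≤ W τ γ θ U P Z := by
  have hU : 0 < U := lt_of_lt_of_le hP h1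
  have e : W τ γ θ U P Z = (U / P) ^ γ * (U / Z) ^ θ := by
    unfold W
    rw [hτ, Real.rpow_add hU, Real.rpow_neg hP.le, Real.rpow_neg hZ.le,
      Real.div_rpow hU.le hP.le, Real.div_rpow hU.le hZ.le]
    field_simp
  rw [e]
  have h3 : 1 ≤ (U / P) ^ γ := Real.one_le_rpow ((one_le_div hP).2 h1) hγ
  have h4 : 1 ≤ (U / Z) ^ θ := Real.one_le_rpow ((one_le_div hZ).2 h2) hθ
  exact one_le_mul_of_one_le_of_one_le h3 h4

theorem W_scale (τ γ θ U U' P Z q κ j : ℝ) (hτ : 0 ≤ τ) (hU' : 0 ≤ U') (hU : 0 ≤ U)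
    (hq : 0 ≤ q) (hP : 0 ≤ P) (hκ : 0 < κ) (hZ : 0 ≤ Z) (h : U' ≤ q * U) :
    W τ γ θ U' (P * κ ^ j) Z ≤ q ^ τ * κ ^ (-(γ * j)) * W τ γ θ U P Z := by
  unfold W
  have h1 : U' ^ τ ≤ q ^ τ * U ^ τ := by
    rw [← Real.mul_rpow hq hU]
    exact Real.rpow_le_rpow hU' h hτ
  have h3 : (P * κ ^ j) ^ (-γ) = P ^ (-γ) * κ ^ (-(γ * j)) := by
    rw [Real.mul_rpow hP (Real.rpow_nonneg hκ.le _), ← Real.rpow_mul hκ.le]
    congr 2
    ring
  rw [h3]
  have h2 : 0 ≤ P ^ (-γ) * κ ^ (-(γ * j)) * Z ^ (-θ) := by positivity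
  calc U' ^ τ * (P ^ (-γ) * κ ^ (-(γ * j))) * Z ^ (-θ)
      = U' ^ τ * (P ^ (-γ) * κ ^ (-(γ * j)) * Z ^ (-θ)) := by ring
    _ ≤ q ^ τ * U ^ τ * (P ^ (-γ) * κ ^ (-(γ * j)) * Z ^ (-θ)) :=
        mul_le_mul_of_nonneg_right h1 h2
    _ = _ := by ring

theorem core (C : ℕ → ℕ) (m κ b : ℕ) (dd jj rk : ℕ → ℕ) (h q : ℕ → ℝ) (D τ γ θ Z : ℝ)
    (hm : 0 < m) (hκ : 0 < κ) (hdd : ∀ r, 1 ≤ dd r ∧ dd r ≤ b)
    (hpos : ∀ r, 0 < h r) (hD : ∀ r, r < m → 2 * (b : ℝ) ≤ D * h r) (hD0 : 0 ≤ D)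
    (hγ : 0 ≤ γ) (hθ : 0 ≤ θ) (hτ : τ = γ + θ) (hZ : 0 < Z) (hq0 : ∀ r, 0 ≤ q r)
    (hC : ∀ n : ℕ, Z ≤ n → (C n : ℝ) ≤ q (n % m) * n)
    (hstep : ∀ i s : ℕ, ∃ R t : ℕ, dd (s % m) * R = m * κ ^ (i + jj (s % m)) ∧
      (∀ k, C (m * κ ^ i * k + s) = R * k + t) ∧ (dd (s % m) = 1 → rk t < rk s) ∧
      (∑ e ∈ Finset.range (dd (s % m)), h ((R * e + t) % m)) *
        (q (s % m) ^ τ * (κ : ℝ) ^ (-(γ * (jj (s % m) : ℝ)))) ≤ h (s % m))
    (hrk : ∀ s, rk s ≤ 1) :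
    ∀ M N i s : ℕ, 2 ≤ N → 2 * N + rk s ≤ M →
      (cnt C Z (m * κ ^ i) s N : ℝ) ≤
        D * h (s % m) * W τ γ θ ((m * κ ^ i * (N - 1) + s : ℕ) : ℝ) ((m * κ ^ i : ℕ) : ℝ) Z := by
  intro M
  induction M with
  | zero => intro N i s hN hM; omega
  | succ M ih =>
    intro N i s hN hM
    have hτ0 : 0 ≤ τ := by rw [hτ]; positivity
    have hP0 : 0 < m * κ ^ i := by positivity
    have hWn : 0 ≤ W τ γ θ ((m * κ ^ i * (N - 1) + s : ℕ) : ℝ) ((m * κ ^ i : ℕ) : ℝ) Z :=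
      W_nonneg _ _ _ _ _ _ (Nat.cast_nonneg _) (Nat.cast_nonneg _) hZ.le
    by_cases hU : ((m * κ ^ i * (N - 1) + s : ℕ) : ℝ) < Z
    · rw [cnt_zero _ _ _ _ _ hU, Nat.cast_zero]
      exact mul_nonneg (mul_nonneg hD0 (hpos _).le) hWn
    push Not at hU
    by_cases hNb : N < 2 * b
    · have h1 : (cnt C Z (m * κ ^ i) s N : ℝ) ≤ 2 * b := by
        exact_mod_cast (cnt_le _ _ _ _ _).trans hNb.le
      have h2 := hD (s % m) (Nat.mod_lt _ hm)
      have h3 : 1 ≤ W τ γ θ ((m * κ ^ i * (N - 1) + s : ℕ) : ℝ) ((m * κ ^ i : ℕ) : ℝ) Z := by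
        refine one_le_W _ _ _ _ _ _ hτ hγ hθ (by exact_mod_cast hP0) hZ ?_ hU
        have h4 : m * κ ^ i ≤ m * κ ^ i * (N - 1) + s := by
          have h5 : m * κ ^ i * 1 ≤ m * κ ^ i * (N - 1) := Nat.mul_le_mul_left _ (by omega)
          omega
        exact_mod_cast h4
      have h6 := mul_nonneg hD0 (hpos (s % m)).le
      nlinarith
    push Not at hNb
    obtain ⟨R, t, hR, hCk, hone, hsum⟩ := hstep i s
    obtain ⟨hd1, hdb⟩ := hdd (s % m)
    obtain ⟨d, hd⟩ : ∃ d, d = dd (s % m) := ⟨_, rfl⟩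
    obtain ⟨j, hj⟩ : ∃ j, j = jj (s % m) := ⟨_, rfl⟩
    rw [← hd] at hR hone hsum hd1 hdb
    rw [← hj] at hR hsum
    have hsplit := cnt_split C Z (m * κ ^ i) s R t d N hd1 hCk
    have hCU := hCk (N - 1)
    have hmod : (m * κ ^ i * (N - 1) + s) % m = s % m := by
      rw [mul_assoc]
      exact Nat.mul_add_mod m _ s
    have hbound := hC _ hU
    rw [hmod, hCU] at hbound
    have hPj : ((m * κ ^ (i + j) : ℕ) : ℝ) = ((m * κ ^ i : ℕ) : ℝ) * (κ : ℝ) ^ (j : ℝ) := by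
      rw [Real.rpow_natCast, pow_add]
      push_cast
      ring
    have hκR : (0 : ℝ) < κ := by exact_mod_cast hκ
    have each : ∀ e ∈ Finset.range d,
        (cnt C Z (d * R) (R * e + t) ((N + (d - 1 - e)) / d) : ℝ) ≤
          D * h ((R * e + t) % m) * (q (s % m) ^ τ * (κ : ℝ) ^ (-(γ * (j : ℝ))) *
            W τ γ θ ((m * κ ^ i * (N - 1) + s : ℕ) : ℝ) ((m * κ ^ i : ℕ) : ℝ) Z) := by
      intro e he
      rw [Finset.mem_range] at he
      have hN2 : 2 ≤ (N + (d - 1 - e)) / d := by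
        rw [Nat.le_div_iff_mul_le hd1]
        have : 2 * d ≤ 2 * b := Nat.mul_le_mul_left 2 hdb
        omega
      have hle : 2 * ((N + (d - 1 - e)) / d) + rk (R * e + t) ≤ M := by
        by_cases h1 : d = 1
        · have he0 : e = 0 := by omega
          have h2 := hone h1
          rw [he0, h1]
          simp only [Nat.sub_self, Nat.add_zero, Nat.div_one, mul_zero, zero_add]
          omega
        · have h3 : (N + (d - 1 - e)) / d < N := by
            rw [Nat.div_lt_iff_lt_mul hd1]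
            have h4 : 2 ≤ d := by omega
            obtain ⟨d', rfl⟩ : ∃ d', d = d' + 2 := ⟨d - 2, by omega⟩
            have h5 : 2 * (d' + 1) ≤ N * (d' + 1) := Nat.mul_le_mul_right _ hN
            have h6 : N * (d' + 2) = N * (d' + 1) + N := by ring
            omega
          have h4 := hrk (R * e + t)
          omega
      have i1 := ih _ (i + j) (R * e + t) hN2 hle
      rw [← hR] at i1
      have hUle : ((d * R * ((N + (d - 1 - e)) / d - 1) + (R * e + t) : ℕ) : ℝ) ≤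
          q (s % m) * ((m * κ ^ i * (N - 1) + s : ℕ) : ℝ) := by
        refine le_trans ?_ hbound
        have h1 : d * ((N + (d - 1 - e)) / d - 1) + e ≤ N - 1 := by
          have h2 := Nat.mul_div_le (N + (d - 1 - e)) d
          obtain ⟨Q, hQ⟩ : ∃ Q, Q + 1 = (N + (d - 1 - e)) / d :=
            ⟨(N + (d - 1 - e)) / d - 1, by omega⟩
          rw [← hQ] at h2 ⊢
          rw [Nat.add_sub_cancel]
          have h3 : d * (Q + 1) = d * Q + d := by ring
          omega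
        have h4 : d * R * ((N + (d - 1 - e)) / d - 1) + (R * e + t) ≤ R * (N - 1) + t := by
          have h5 := Nat.mul_le_mul_left R h1
          calc d * R * ((N + (d - 1 - e)) / d - 1) + (R * e + t)
              = R * (d * ((N + (d - 1 - e)) / d - 1) + e) + t := by ring
            _ ≤ _ := Nat.add_le_add_right h5 t
        exact_mod_cast h4
      refine i1.trans (mul_le_mul_of_nonneg_left ?_ (mul_nonneg hD0 (hpos _).le))
      rw [hR, hPj]
      rw [hR] at hUle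
      exact W_scale _ _ _ _ _ _ _ _ _ _ hτ0 (Nat.cast_nonneg _) (Nat.cast_nonneg _) (hq0 _)
        (Nat.cast_nonneg _) hκR hZ.le hUle
    have hsplit' : (cnt C Z (m * κ ^ i) s N : ℝ) ≤
        ∑ e ∈ Finset.range d, (cnt C Z (d * R) (R * e + t) ((N + (d - 1 - e)) / d) : ℝ) := by
      exact_mod_cast hsplit
    refine hsplit'.trans ((Finset.sum_le_sum each).trans ?_)
    rw [← Finset.sum_mul, ← Finset.mul_sum]
    calc D * (∑ e ∈ Finset.range d, h ((R * e + t) % m)) *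
          (q (s % m) ^ τ * (κ : ℝ) ^ (-(γ * (j : ℝ))) *
            W τ γ θ ((m * κ ^ i * (N - 1) + s : ℕ) : ℝ) ((m * κ ^ i : ℕ) : ℝ) Z)
        = D * ((∑ e ∈ Finset.range d, h ((R * e + t) % m)) *
          (q (s % m) ^ τ * (κ : ℝ) ^ (-(γ * (j : ℝ))))) *
            W τ γ θ ((m * κ ^ i * (N - 1) + s : ℕ) : ℝ) ((m * κ ^ i : ℕ) : ℝ) Z := by ring
      _ ≤ _ := mul_le_mul_of_nonneg_right (mul_le_mul_of_nonneg_left hsum hD0) hWn

theorem exp_quad (x θ G : ℝ) (hθ : 0 < θ) (hG : |x| ≤ G) (h1 : θ * G ≤ 1) :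
    exp (θ * x) ≤ 1 + θ * x + θ ^ 2 * G ^ 2 := by
  have hx : |θ * x| ≤ 1 := by
    rw [abs_mul, abs_of_pos hθ]
    exact (mul_le_mul_of_nonneg_left hG hθ.le).trans h1
  have h2 := (abs_le.1 (Real.abs_exp_sub_one_sub_id_le hx)).2
  have h3 : (θ * x) ^ 2 ≤ θ ^ 2 * G ^ 2 := by
    rw [mul_pow]
    refine mul_le_mul_of_nonneg_left ?_ (sq_nonneg θ)
    rw [← sq_abs x]
    exact pow_le_pow_left₀ (abs_nonneg x) hG 2
  linarith

theorem small_sum (d : ℕ) (x : ℕ → ℝ) (θ G η : ℝ) (hθ : 0 < θ) (hG : ∀ e, |x e| ≤ G)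
    (h1 : θ * G ≤ 1) (h2 : θ * G ^ 2 ≤ η) (hx : ∑ e ∈ Finset.range d, x e ≤ -(d * η)) :
    ∑ e ∈ Finset.range d, exp (θ * x e) ≤ d := by
  have h3 : ∑ e ∈ Finset.range d, exp (θ * x e) ≤
      ∑ e ∈ Finset.range d, (1 + θ * x e + θ ^ 2 * G ^ 2) :=
    Finset.sum_le_sum fun e _ => exp_quad _ _ _ hθ (hG e) h1
  refine h3.trans ?_
  rw [Finset.sum_add_distrib, Finset.sum_add_distrib, ← Finset.mul_sum, Finset.sum_const,
    Finset.sum_const, Finset.card_range, nsmul_eq_mul, nsmul_eq_mul, mul_one]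
  have h4 := mul_le_mul_of_nonneg_left hx hθ.le
  have h5 : (d : ℝ) * (θ * (θ * G ^ 2)) ≤ d * (θ * η) :=
    mul_le_mul_of_nonneg_left (mul_le_mul_of_nonneg_left h2 hθ.le) (Nat.cast_nonneg _)
  nlinarith

end Pool.Agent.H740K
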