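import Pool.Agent.H740K.Core

/-!
# Almost all orbits fall below `n ^ c`: the general theorem
-/

set_option autoImplicit false

open Real Filter Topology

namespace Pool.Agent.H740K

theorem q_bound (κ d j τ γ θ c η B Z : ℝ) (hκ : 0 < κ) (hd : 0 < d) (hτ : τ = 1 + θ * c)
    (hγ : γ = τ - θ) (hτ0 : 0 ≤ τ) (hZ : 0 < Z) (hB : 0 ≤ B) (hη : τ * B ≤ θ * (η / 2) * Z) :
    (κ ^ j / d * (1 + B / Z)) ^ τ * κ ^ (-(γ * j)) ≤
      1 / d * exp (θ * (j * log κ - c * log d + η / 2)) := by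
  have h1 : (1 + B / Z) ^ τ ≤ exp (θ * (η / 2)) := by
    have h2 : 1 + B / Z ≤ exp (B / Z) := by
      have := Real.add_one_le_exp (B / Z)
      linarith
    refine (Real.rpow_le_rpow (by positivity) h2 hτ0).trans ?_
    rw [← Real.exp_mul]
    refine Real.exp_le_exp.2 ?_
    rw [div_mul_eq_mul_div, div_le_iff₀ hZ]
    linarith
  have h3 : (κ ^ j / d) ^ τ * κ ^ (-(γ * j)) = 1 / d * exp (θ * (j * log κ - c * log d)) := by
    have e1 : κ ^ j / d = exp (j * log κ - log d) := by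
      rw [Real.exp_sub, Real.exp_log hd, Real.rpow_def_of_pos hκ]
      congr 2
      ring
    have e2 : κ ^ (-(γ * j)) = exp (-(γ * j) * log κ) := by
      rw [Real.rpow_def_of_pos hκ]
      congr 1
      ring
    have e3 : 1 / d = exp (-log d) := by
      rw [Real.exp_neg, Real.exp_log hd, one_div]
    rw [e1, e2, e3, ← Real.exp_mul, ← Real.exp_add, ← Real.exp_add, hγ, hτ]
    congr 1
    ring
  have h4 : 0 ≤ κ ^ (-(γ * j)) := Real.rpow_nonneg hκ.le _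
  have h5 : 0 ≤ (κ ^ j / d) ^ τ := by positivity
  calc (κ ^ j / d * (1 + B / Z)) ^ τ * κ ^ (-(γ * j))
      = ((κ ^ j / d) ^ τ * κ ^ (-(γ * j))) * (1 + B / Z) ^ τ := by
        rw [Real.mul_rpow (by positivity) (by positivity)]
        ring
    _ ≤ ((κ ^ j / d) ^ τ * κ ^ (-(γ * j))) * exp (θ * (η / 2)) :=
        mul_le_mul_of_nonneg_left h1 (mul_nonneg h5 h4)
    _ = _ := by
        rw [h3, mul_assoc, ← Real.exp_add]
        congr 2
        ring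

open Classical in
theorem cover (C : ℕ → ℕ) (Z : ℝ) (m : ℕ) (hm : 0 < m) (X : ℕ) :
    ((Finset.range (X + 1)).filter fun n => Bad C Z n).card ≤
      ∑ s ∈ Finset.range m, cnt C Z m s (X / m + 2) := by
  have h : ((Finset.range (X + 1)).filter fun n => Bad C Z n) ⊆
      (Finset.range m).biUnion fun s =>
        ((Finset.range (X / m + 2)).filter fun k => Bad C Z (m * k + s)).image
          (fun k => m * k + s) := by
    intro n hn
    rw [Finset.mem_filter, Finset.mem_range] at hn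
    rw [Finset.mem_biUnion]
    refine ⟨n % m, Finset.mem_range.2 (Nat.mod_lt _ hm), ?_⟩
    rw [Finset.mem_image]
    have e := Nat.div_add_mod n m
    refine ⟨n / m, ?_, e⟩
    rw [Finset.mem_filter, Finset.mem_range, e]
    have h1 : n / m ≤ X / m := Nat.div_le_div_right (by omega)
    exact ⟨by omega, hn.2⟩
  refine (Finset.card_le_card h).trans (Finset.card_biUnion_le.trans ?_)
  exact Finset.sum_le_sum fun s _ => Finset.card_image_le

open Classical in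
/-- the number of `n ≤ X` with all iterates at least `Z` -/
theorem level (C : ℕ → ℕ) (m κ b B : ℕ) (dd jj rk : ℕ → ℕ) (g : ℕ → ℝ) (c η : ℝ)
    (hm : 0 < m) (hκ : 0 < κ) (hdd : ∀ r, 1 ≤ dd r ∧ dd r ≤ b) (hrk : ∀ s, rk s ≤ 1)
    (hη : 0 < η) (hc : 0 < c)
    (hC : ∀ n : ℕ, dd (n % m) * C n ≤ κ ^ (jj (n % m)) * n + B)
    (hstep : ∀ i s : ℕ, ∃ R t : ℕ, dd (s % m) * R = m * κ ^ (i + jj (s % m)) ∧
      (∀ k, C (m * κ ^ i * k + s) = R * k + t) ∧ (dd (s % m) = 1 → rk t < rk s) ∧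
      ∑ e ∈ Finset.range (dd (s % m)), g ((R * e + t) % m) +
        dd (s % m) * (jj (s % m) * log κ - c * log (dd (s % m)) + η) ≤
          dd (s % m) * g (s % m)) :
    ∃ θ : ℝ, 0 < θ ∧ ∃ A Z₀ : ℝ, 0 ≤ A ∧ 1 ≤ Z₀ ∧ ∀ Z : ℝ, Z₀ ≤ Z → ∀ X : ℕ, 1 ≤ X →
      (((Finset.range (X + 1)).filter fun n => Bad C Z n).card : ℝ) ≤
        A * ((X : ℝ) ^ (1 + θ * c) * Z ^ (-θ)) := by
  obtain ⟨S, hS⟩ : ∃ S : ℝ, S = ∑ r ∈ Finset.range m, |g r| := ⟨_, rfl⟩
  have hS0 : 0 ≤ S := by rw [hS]; exact Finset.sum_nonneg fun _ _ => abs_nonneg _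
  have hgS : ∀ r, r < m → |g r| ≤ S := by
    intro r hr
    rw [hS]
    exact Finset.single_le_sum (f := fun r => |g r|) (fun _ _ => abs_nonneg _)
      (Finset.mem_range.2 hr)
  obtain ⟨J, hJ⟩ : ∃ J : ℕ, J = ∑ r ∈ Finset.range m, jj r := ⟨_, rfl⟩
  have hjJ : ∀ r, r < m → jj r ≤ J := by
    intro r hr
    rw [hJ]
    exact Finset.single_le_sum (f := jj) (fun _ _ => Nat.zero_le _) (Finset.mem_range.2 hr)
  have hκ1 : (1 : ℝ) ≤ κ := by exact_mod_cast hκ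
  have hκ0 : (0 : ℝ) < κ := by linarith
  have hlκ : 0 ≤ log κ := Real.log_nonneg hκ1
  have hb1 : 1 ≤ b := (hdd 0).1.trans (hdd 0).2
  have hlb : 0 ≤ log b := Real.log_nonneg (by exact_mod_cast hb1)
  obtain ⟨G, hG⟩ : ∃ G : ℝ, G = 2 * S + J * log κ + c * log b + η := ⟨_, rfl⟩
  have hG0 : 0 < G := by rw [hG]; positivity
  obtain ⟨θ, hθ⟩ : ∃ θ : ℝ, θ = min 1 (min (1 / G) ((η / 2) / G ^ 2)) := ⟨_, rfl⟩
  have hθ0 : 0 < θ := by
    rw [hθ]
    exact lt_min one_pos (lt_min (by positivity) (by positivity))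
  have hθ1 : θ ≤ 1 := by rw [hθ]; exact min_le_left _ _
  have hθG : θ * G ≤ 1 := by
    have h1 : θ ≤ 1 / G := by rw [hθ]; exact (min_le_right _ _).trans (min_le_left _ _)
    rwa [le_div_iff₀ hG0] at h1
  have hθG2 : θ * G ^ 2 ≤ η / 2 := by
    have h1 : θ ≤ (η / 2) / G ^ 2 := by rw [hθ]; exact (min_le_right _ _).trans (min_le_right _ _)
    rwa [le_div_iff₀ (by positivity)] at h1
  obtain ⟨h, hh⟩ : ∃ h : ℕ → ℝ, h = fun r => exp (θ * g r) := ⟨_, rfl⟩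
  have hpos : ∀ r, 0 < h r := fun r => by rw [hh]; exact Real.exp_pos _
  obtain ⟨D, hD⟩ : ∃ D : ℝ, D = ∑ r ∈ Finset.range m, 2 * (b : ℝ) * (h r)⁻¹ := ⟨_, rfl⟩
  have hterm : ∀ r, 0 ≤ 2 * (b : ℝ) * (h r)⁻¹ := fun r =>
    mul_nonneg (by positivity) (inv_nonneg.2 (hpos r).le)
  have hD0 : 0 ≤ D := by
    rw [hD]
    exact Finset.sum_nonneg fun r _ => hterm r
  have hDb : ∀ r, r < m → 2 * (b : ℝ) ≤ D * h r := by
    intro r hr
    have e1 : 2 * (b : ℝ) * (h r)⁻¹ ≤ D := by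
      rw [hD]
      exact Finset.single_le_sum (f := fun r => 2 * (b : ℝ) * (h r)⁻¹)
        (fun r _ => hterm r) (Finset.mem_range.2 hr)
    have e2 := mul_le_mul_of_nonneg_right e1 (hpos r).le
    rwa [mul_assoc, inv_mul_cancel₀ (hpos r).ne', mul_one] at e2
  obtain ⟨τ, hτ⟩ : ∃ τ : ℝ, τ = 1 + θ * c := ⟨_, rfl⟩
  obtain ⟨γ, hγ⟩ : ∃ γ : ℝ, γ = τ - θ := ⟨_, rfl⟩
  have hθc := mul_pos hθ0 hc
  have hγ0 : 0 ≤ γ := by rw [hγ, hτ]; linarith
  have hτγ : τ = γ + θ := by rw [hγ]; ring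
  have hτ0 : 0 ≤ τ := by rw [hτγ]; linarith
  refine ⟨θ, hθ0, (∑ s ∈ Finset.range m, D * h s) * ((2 * m + 1) ^ τ * (m : ℝ) ^ (-γ)),
    max 1 (τ * B / (θ * (η / 2))), ?_, le_max_left _ _, ?_⟩
  · exact mul_nonneg (Finset.sum_nonneg fun s _ => mul_nonneg hD0 (hpos s).le) (by positivity)
  intro Z hZ X hX
  have hZ1 : 1 ≤ Z := (le_max_left _ _).trans hZ
  have hZ2 : τ * B / (θ * (η / 2)) ≤ Z := (le_max_right _ _).trans hZ
  have hZ0 : 0 < Z := by linarith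
  rw [div_le_iff₀ (by positivity)] at hZ2
  obtain ⟨q, hq⟩ : ∃ q : ℕ → ℝ, q = fun r =>
    (κ : ℝ) ^ ((jj r : ℕ) : ℝ) / dd r * (1 + B / Z) := ⟨_, rfl⟩
  have hddR : ∀ r, (0 : ℝ) < dd r := fun r => by exact_mod_cast (hdd r).1
  have hq0 : ∀ r, 0 ≤ q r := by
    intro r
    rw [hq]
    have := hddR r
    positivity
  rw [← hτ]
  have key := core C m κ b dd jj rk h q D τ γ θ Z hm hκ hdd hpos hDb hD0 hγ0 hθ0.le hτγ hZ0 hq0
    ?_ ?_ hrk
  · have each : ∀ s ∈ Finset.range m, (cnt C Z m s (X / m + 2) : ℝ) ≤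
        D * h s * ((2 * m + 1) ^ τ * (m : ℝ) ^ (-γ) * ((X : ℝ) ^ τ * Z ^ (-θ))) := by
      intro s hs
      rw [Finset.mem_range] at hs
      have k1 := key _ (X / m + 2) 0 s (Nat.le_add_left 2 _) le_rfl
      rw [pow_zero, mul_one, Nat.mod_eq_of_lt hs] at k1
      refine k1.trans (mul_le_mul_of_nonneg_left ?_ (mul_nonneg hD0 (hpos s).le))
      have k2 : ((m * (X / m + 2 - 1) + s : ℕ) : ℝ) ≤ (2 * m + 1) * (X : ℝ) := by
        have h1 := Nat.mul_div_le X m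
        have h2 : m * (X / m + 2 - 1) = m * (X / m) + m := by
          have : X / m + 2 - 1 = X / m + 1 := rfl
          rw [this]
          ring
        have h3 : 2 * m ≤ 2 * m * X := Nat.le_mul_of_pos_right _ hX
        have h4 : m * (X / m + 2 - 1) + s ≤ (2 * m + 1) * X := by
          rw [h2]
          have h5 : (2 * m + 1) * X = 2 * m * X + X := by ring
          omega
        exact_mod_cast h4
      have k3 := W_scale τ γ θ (X : ℝ) ((m * (X / m + 2 - 1) + s : ℕ) : ℝ) (m : ℝ) Z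
        (2 * m + 1) 1 0 hτ0 (Nat.cast_nonneg _) (Nat.cast_nonneg _) (by positivity)
        (Nat.cast_nonneg _) one_pos hZ0.le k2
      rw [Real.one_rpow, mul_one, Real.one_rpow, mul_one] at k3
      refine k3.trans (le_of_eq ?_)
      unfold W
      ring
    have tot : (((Finset.range (X + 1)).filter fun n => Bad C Z n).card : ℝ) ≤
        ∑ s ∈ Finset.range m, (cnt C Z m s (X / m + 2) : ℝ) := by
      exact_mod_cast cover C Z m hm X
    refine tot.trans ((Finset.sum_le_sum each).trans (le_of_eq ?_))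
    rw [← Finset.sum_mul]
    ring
  · intro n hn
    have h1 := hC n
    have h2 : (dd (n % m) : ℝ) * C n ≤ (κ : ℝ) ^ (jj (n % m)) * n + B := by exact_mod_cast h1
    rw [hq]
    have hd0 := hddR (n % m)
    have hn0 : (0 : ℝ) < n := lt_of_lt_of_le hZ0 hn
    have h3 : (1 : ℝ) ≤ (κ : ℝ) ^ (jj (n % m)) := one_le_pow₀ hκ1
    simp only
    rw [Real.rpow_natCast, div_mul_eq_mul_div, div_mul_eq_mul_div, le_div_iff₀ hd0]
    have h4 : (1 : ℝ) ≤ n / Z := (one_le_div hZ0).2 hn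
    have h5 : (B : ℝ) ≤ (κ : ℝ) ^ (jj (n % m)) * (B / Z) * n := by
      have h6 : (κ : ℝ) ^ (jj (n % m)) * (B / Z) * n = B * ((κ : ℝ) ^ (jj (n % m)) * (n / Z)) := by
        ring
      rw [h6]
      have h7 : (1 : ℝ) ≤ (κ : ℝ) ^ (jj (n % m)) * (n / Z) :=
        one_le_mul_of_one_le_of_one_le h3 h4
      exact le_mul_of_one_le_right (Nat.cast_nonneg _) h7
    nlinarith
  · intro i s
    obtain ⟨R, t, hR, hCk, hone, hsum⟩ := hstep i s
    refine ⟨R, t, hR, hCk, hone, ?_⟩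
    have hsm : s % m < m := Nat.mod_lt _ hm
    obtain ⟨d, hd⟩ : ∃ d, d = dd (s % m) := ⟨_, rfl⟩
    obtain ⟨j, hj⟩ : ∃ j, j = jj (s % m) := ⟨_, rfl⟩
    have hjJ' := hjJ (s % m) hsm
    have hd0 := hddR (s % m)
    have hdb := (hdd (s % m)).2
    have hd1 := (hdd (s % m)).1
    rw [hh, hq]
    simp only
    rw [← hd] at hsum hd0 hdb hd1 ⊢
    rw [← hj] at hsum hjJ' ⊢
    have hqb := q_bound (κ : ℝ) d j τ γ θ c η B Z hκ0 hd0 hτ hγ hτ0 hZ0 (Nat.cast_nonneg _)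
      (by linarith)
    have hld0 : 0 ≤ log d := Real.log_nonneg (by exact_mod_cast hd1)
    have hldb : log d ≤ log b := Real.log_le_log hd0 (by exact_mod_cast hdb)
    have hjl : (j : ℝ) * log κ ≤ J * log κ :=
      mul_le_mul_of_nonneg_right (by exact_mod_cast hjJ') hlκ
    have hjl0 : 0 ≤ (j : ℝ) * log κ := by positivity
    have hcl : c * log d ≤ c * log b := mul_le_mul_of_nonneg_left hldb hc.le
    have hcl0 : 0 ≤ c * log d := mul_nonneg hc.le hld0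
    obtain ⟨x, hx⟩ : ∃ x : ℕ → ℝ, x = fun e => g ((R * e + t) % m) - g (s % m) +
      (j * log κ - c * log d + η / 2) := ⟨_, rfl⟩
    have hxG : ∀ e, |x e| ≤ G := by
      intro e
      rw [hx, hG]
      have a1 := abs_le.1 (hgS ((R * e + t) % m) (Nat.mod_lt _ hm))
      have a2 := abs_le.1 (hgS (s % m) hsm)
      rw [abs_le]
      constructor
      · linarith [a1.1, a1.2, a2.1, a2.2]
      · linarith [a1.1, a1.2, a2.1, a2.2]
    have hxs : ∑ e ∈ Finset.range d, x e ≤ -(d * (η / 2)) := by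
      rw [hx]
      rw [Finset.sum_add_distrib, Finset.sum_sub_distrib, Finset.sum_const, Finset.sum_const,
        Finset.card_range, nsmul_eq_mul, nsmul_eq_mul]
      linarith
    have hfin := small_sum d x θ G (η / 2) hθ0 hxG hθG hθG2 hxs
    have hexp : (∑ e ∈ Finset.range d, exp (θ * g ((R * e + t) % m))) *
        exp (θ * (j * log κ - c * log d + η / 2)) =
        exp (θ * g (s % m)) * ∑ e ∈ Finset.range d, exp (θ * x e) := by
      rw [Finset.sum_mul, Finset.mul_sum]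
      refine Finset.sum_congr rfl fun e _ => ?_
      rw [← Real.exp_add, ← Real.exp_add, hx]
      congr 1
      ring
    have hsn : 0 ≤ ∑ e ∈ Finset.range d, exp (θ * g ((R * e + t) % m)) :=
      Finset.sum_nonneg fun _ _ => (Real.exp_pos _).le
    calc (∑ e ∈ Finset.range d, exp (θ * g ((R * e + t) % m))) *
          (((κ : ℝ) ^ (j : ℝ) / d * (1 + B / Z)) ^ τ * (κ : ℝ) ^ (-(γ * (j : ℝ))))
        ≤ (∑ e ∈ Finset.range d, exp (θ * g ((R * e + t) % m))) *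
          (1 / d * exp (θ * (j * log κ - c * log d + η / 2))) :=
          mul_le_mul_of_nonneg_left hqb hsn
      _ = 1 / d * ((∑ e ∈ Finset.range d, exp (θ * g ((R * e + t) % m))) *
          exp (θ * (j * log κ - c * log d + η / 2))) := by ring
      _ = 1 / d * (exp (θ * g (s % m)) * ∑ e ∈ Finset.range d, exp (θ * x e)) := by rw [hexp]
      _ ≤ 1 / d * (exp (θ * g (s % m)) * d) := by gcongr
      _ = exp (θ * g (s % m)) := by field_simp

open Classical in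
/-- from levels to the statement on `n ^ c` -/
theorem final (C : ℕ → ℕ) (c₀ : ℝ) (hc₀0 : 0 < c₀)
    (hlev : ∀ c₂ : ℝ, c₀ < c₂ → ∃ θ : ℝ, 0 < θ ∧ ∃ A Z₀ : ℝ, 0 ≤ A ∧ 1 ≤ Z₀ ∧
      ∀ Z : ℝ, Z₀ ≤ Z → ∀ X : ℕ, 1 ≤ X →
      (((Finset.range (X + 1)).filter fun n => Bad C Z n).card : ℝ) ≤
        A * ((X : ℝ) ^ (1 + θ * c₂) * Z ^ (-θ))) (c : ℝ) (hc : c₀ < c) :
    ∃ δ : ℝ, 0 < δ ∧ ∃ A : ℝ, ∀ X : ℕ, 1 ≤ X →
      (((Finset.Icc 1 X).filter
        fun n : ℕ => ∀ k : ℕ, (n : ℝ) ^ c ≤ ((C^[k] n : ℕ) : ℝ)).card : ℝ) ≤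
          A * (X : ℝ) ^ (1 - δ) := by
  obtain ⟨c₂, hc₂⟩ : ∃ c₂ : ℝ, c₂ = (2 * c₀ + c) / 3 := ⟨_, rfl⟩
  obtain ⟨c₁, hc₁⟩ : ∃ c₁ : ℝ, c₁ = (c₀ + 2 * c) / 3 := ⟨_, rfl⟩
  obtain ⟨θ, hθ, A, Z₀, hA, hZ₀, main⟩ := hlev c₂ (by rw [hc₂]; linarith)
  have hc0 : 0 < c := by linarith
  have hc10 : 0 < c₁ := by rw [hc₁]; linarith
  have hc1c : c₁ < c := by rw [hc₁]; linarith
  have hc21 : c₂ < c₁ := by rw [hc₁, hc₂]; linarith
  have hq : c₁ / c < 1 := (div_lt_one hc0).2 hc1c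
  have hq0 : 0 < c₁ / c := div_pos hc10 hc0
  refine ⟨min (θ * (c₁ - c₂)) (1 - c₁ / c),
    lt_min (mul_pos hθ (by linarith)) (by linarith), A + 1 + Z₀ ^ (1 / c₁), ?_⟩
  intro X hX
  set δ := min (θ * (c₁ - c₂)) (1 - c₁ / c) with hδ
  have hδ1 : δ ≤ θ * (c₁ - c₂) := min_le_left _ _
  have hδ2 : δ ≤ 1 - c₁ / c := min_le_right _ _
  have hX1 : (1 : ℝ) ≤ X := by exact_mod_cast hX
  have hX0 : (0 : ℝ) < X := by linarith
  have hXd : (1 : ℝ) ≤ (X : ℝ) ^ (1 - δ) := Real.one_le_rpow hX1 (by linarith)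
  have hZ00 : 0 ≤ Z₀ ^ (1 / c₁) := by positivity
  by_cases hcase : Z₀ ≤ (X : ℝ) ^ c₁
  · have hsub : ((Finset.Icc 1 X).filter
        fun n : ℕ => ∀ k : ℕ, (n : ℝ) ^ c ≤ ((C^[k] n : ℕ) : ℝ)) ⊆
        ((Finset.range (X + 1)).filter fun n => Bad C ((X : ℝ) ^ c₁) n) ∪
          Finset.Icc 1 ⌊(X : ℝ) ^ (c₁ / c)⌋₊ := by
      intro n hn
      rw [Finset.mem_filter, Finset.mem_Icc] at hn
      obtain ⟨⟨hn1, hnX⟩, hn2⟩ := hn
      rw [Finset.mem_union, Finset.mem_filter, Finset.mem_range, Finset.mem_Icc]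
      by_cases hs : (n : ℝ) ≤ (X : ℝ) ^ (c₁ / c)
      · right
        exact ⟨hn1, Nat.le_floor hs⟩
      · left
        refine ⟨by omega, fun k => le_trans ?_ (hn2 k)⟩
        push Not at hs
        have e1 : ((X : ℝ) ^ (c₁ / c)) ^ c ≤ (n : ℝ) ^ c :=
          Real.rpow_le_rpow (by positivity) hs.le hc0.le
        rwa [← Real.rpow_mul hX0.le, div_mul_cancel₀ _ hc0.ne'] at e1
    have hcard := (Finset.card_le_card hsub).trans (Finset.card_union_le _ _)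
    rw [Nat.card_Icc, Nat.add_sub_cancel] at hcard
    have hcard' : (((Finset.Icc 1 X).filter
        fun n : ℕ => ∀ k : ℕ, (n : ℝ) ^ c ≤ ((C^[k] n : ℕ) : ℝ)).card : ℝ) ≤
        (((Finset.range (X + 1)).filter fun n => Bad C ((X : ℝ) ^ c₁) n).card : ℝ) +
          (⌊(X : ℝ) ^ (c₁ / c)⌋₊ : ℝ) := by exact_mod_cast hcard
    have m1 := main _ hcase X hX
    have m2 : (X : ℝ) ^ (1 + θ * c₂) * ((X : ℝ) ^ c₁) ^ (-θ) ≤ (X : ℝ) ^ (1 - δ) := by
      rw [← Real.rpow_mul hX0.le, ← Real.rpow_add hX0]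
      refine Real.rpow_le_rpow_of_exponent_le hX1 ?_
      linarith
    have m3 : (⌊(X : ℝ) ^ (c₁ / c)⌋₊ : ℝ) ≤ (X : ℝ) ^ (1 - δ) := by
      refine (Nat.floor_le (by positivity)).trans ?_
      exact Real.rpow_le_rpow_of_exponent_le hX1 (by linarith)
    have m4 := mul_le_mul_of_nonneg_left m2 hA
    nlinarith
  · push Not at hcase
    have e1 : (X : ℝ) ≤ Z₀ ^ (1 / c₁) := by
      have e2 : ((X : ℝ) ^ c₁) ^ (1 / c₁) ≤ Z₀ ^ (1 / c₁) :=
        Real.rpow_le_rpow (by positivity) hcase.le (by positivity)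
      rwa [← Real.rpow_mul hX0.le, mul_one_div_cancel hc10.ne', Real.rpow_one] at e2
    have e3 : (((Finset.Icc 1 X).filter
        fun n : ℕ => ∀ k : ℕ, (n : ℝ) ^ c ≤ ((C^[k] n : ℕ) : ℝ)).card : ℝ) ≤ X := by
      have e4 := Finset.card_filter_le (Finset.Icc 1 X)
        (fun n : ℕ => ∀ k : ℕ, (n : ℝ) ^ c ≤ ((C^[k] n : ℕ) : ℝ))
      rw [Nat.card_Icc, Nat.add_sub_cancel] at e4
      exact_mod_cast e4
    nlinarith

end Pool.Agent.H740K
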